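import Mathlib
import Pool.Agent.K4H21.TL.Fin
import Pool.Agent.K4H21.TL.Ang
import Pool.Agent.K4H21.TL.Eqv
import Pool.Agent.K4H21.TL.Mat
import Pool.Agent.K4H21.TL.NumF
import Pool.Agent.K4H21.LC.SimpF
import Pool.Agent.K4H21.LC.Simp2

/-!
# The Tate conjecture for ordinary abelian varieties over finite fields

Let `A` be an ordinary abelian variety over the finite field with `q = p ^ n` elements, `Y` the complex
abelian variety of its canonical lift, and `F` the endomorphism of `Y` which lifts the Frobenius
endomorphism (`IsOrdinaryLift Y F p n`; by Serre and Tate, Messing and Deligne, `A ↦ (Y, F)` is, up to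
isogeny, an equivalence of categories with the pairs of this kind). The rational Tate module of `A` is
`H_1(Y, ℚ) ⊗ ℚ_ℓ`, with the action of `F`, so that the classes in `H^(2c)(A ^ k, ℚ_ℓ)` are the alternating
forms `t` in `2 c` variables on `H_1(Y ^ k, ℚ)` with values in `ℚ_ℓ`, and `t` is a Tate class over a finite
extension of the finite field if and only if `t (F ^ s v) = q ^ (s c) t v` for some `s > 0`
(`IsTate (powF F k) q c t`). Algebraic classes on `Y ^ k` specialize to algebraic classes on `A ^ k`.

Let `Alg` be the smallest system of cohomology classes on complex abelian varieties which contains the
classes of degree zero, the Hodge classes of degree two (algebraic by Lefschetz) and the Weil classes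
of imaginary quadratic fields on abelian fourfolds and on abelian sixfolds with trivial discriminant
(algebraic by Markman), and which is stable under linear combinations, cup products, pull-backs along
homomorphisms and push-forwards along the projections of products. A system of classes (`Sys`) is a
family with these closure properties; the algebraic classes are a system, and `Alg` is the smallest.

The Frobenius eigenvalues of `A` are the eigenvalues of `F` (`eigs F`); those on the tangent space of `Y`
(`tanEigs Y F`) are the eigenvalues which are not `p`-adic units, and their complex conjugates, the
other eigenvalues, are units. `F` is called neat if no two eigenvalues have equal powers; this is true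
after a finite extension of the finite field (which changes neither the Tate classes over all
finite extensions nor the angle rank), and then there are `2 g'` eigenvalues, where `g'` is the dimension
of the product of one simple abelian variety of each isogeny class in `A` over the algebraic closure.
The angle rank is the rank of the group generated by the numbers `α ^ 2 / q`, for all eigenvalues `α`;
it is at most `g'`.

For an eigenvalue `α` and an imaginary quadratic field `K` contained in `ℚ(α)` (this is the CM field of
a simple factor) let `O` be the set of the conjugates of `α` over `K` (`conjOver`). `Small` says that at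
most three elements of `O` are units and at most three are not units: these are the multiplicities
of `K` on the tangent space of the simple factor.

The theorem has four parts.

1. The Tate classes over finite extensions on all powers `A ^ k`, with coefficients in any field of
   characteristic zero, are the linear combinations of the Hodge classes of `Y ^ k`. (This is essentially
   known, since the Mumford-Tate group of `Y` is generated by the Frobenius element. It is the link
   between the two sides.)
2. **New cases of the Tate conjecture.** Let `F` be neat, let `α_1, ..., α_r` be eigenvalues which are
   pairwise not conjugate over `ℚ`, let `ℚ(δ_i)` be an imaginary quadratic field in `ℚ(α_i)`, `δ_i = √-d_i`,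
   with at most three units and at most three non-units among the conjugates of `α_i` over
   `ℚ(δ_i)`, and let `s` be the number of the different `d_i` for which these two numbers are
   different for some `i`. If the angle rank is at least `g' - r + s` then the Tate conjecture is true
   for all powers of `A`: all Tate classes on all `A ^ k`, over all finite extensions, are linear
   combinations of classes of every system, in particular of algebraic classes. There is no bound on
   `r` and `g'`. (Remark, not part of the theorem: if the `d_i` are square free integers then the
   angle rank is at most `g' - r + s`; the hypothesis says that it is as large as the imaginary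
   quadratic fields permit.) For example, let `A` be a product of pairwise non-isogenous geometrically
   simple ordinary abelian varieties `A_i` of dimension `g_i ≤ 6` on which the same imaginary quadratic
   field acts, with multiplicities at most three, not all pairs of multiplicities equal, such that the
   angle rank is `1 + ∑ (g_i - 1)`.
3. **The exact reach of the theorems of Lefschetz and Markman.** Let `F` be neat. All Tate classes on all
   powers of `A`, over all finite extensions, are linear combinations of classes in `Alg` if and only if
   all multiplicative relations between the Frobenius eigenvalues (`∏ (α ^ 2 / q) ^ m(α)` is a root of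
   unity) are in the subgroup of the free abelian group on the eigenvalues which is generated by
   `[α] + [q / α]` and by the sums over the conjugates of `α` over the imaginary quadratic fields as in
   part 2 (`MultGen`).
4. **Geometrically simple abelian varieties.** If `Y` is simple, of dimension `g`, then all Tate classes
   on all powers of `A`, over all finite extensions, are linear combinations of classes in `Alg` if and
   only if the angle rank is `g`, or the angle rank is `g - 1` and `g ≤ 6`.

The theorem also gives the Tate conjecture for powers of abelian varieties with complex multiplication
over number fields which have a reduction of this kind with `Y` as canonical lift, since Tate classes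
over the number field are Tate classes of the reduction.

There is no unproved hypothesis. The proof uses Kronecker's theorem: a product of Frobenius eigenvalues
is a power of `q` times a root of unity if and only if the family of the embeddings is balanced with
respect to the CM types, since the prime ideals over `p` in a Galois number field are conjugate. So
rational Tate classes are Hodge classes, multiplicative relations between the eigenvalues are linear
relations between the sign vectors of the CM types, and the angle rank is the dimension of their span.
Then the exact criterion for Hodge classes (`MP_e12fcd_ag.LatticeCriterion`) applies.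
-/

set_option autoImplicit false

namespace Pool.Agent.Results.MP_021685_ag.OrdinaryLattice

open Module NumberField Pool.Agent.Y90 Pool.Agent.R915 Pool.Agent.K4H29.HC Pool.Agent.K4H21.DB
open Pool.Agent.K4H21.LC Pool.Agent.K4H21.TL
open Pool.Agent.H204R3.CM (IsHodge)
open Pool.Agent.W547.KB (CMPair)
open Pool.Agent.W547.LN (SameType)

/-- **The Tate conjecture for ordinary abelian varieties over finite fields.** -/
theorem result (Y : AV) (F : Y.H →ₗ[ℚ] Y.H) (p n : ℕ) (h : IsOrdinaryLift Y F p n) :
    -- Tate classes and Hodge classes
    (∀ (k c : ℕ) (κ : Type) [Finite κ] (R : Type) [Field R] [CharZero R]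
      (t : (pow Y k).H [⋀^κ]→ₗ[ℚ] R), Nat.card κ = 2 * c →
      (IsTate (powF F k) (p ^ n) c t ↔ IsCombination (fun f => IsHodge (pow Y k).per f) t)) ∧
    -- the Tate conjecture if the angle rank is as large as the imaginary quadratic fields permit
    (Neat F → ∀ (r : ℕ) (α : Fin r → ℂ) (_ : ∀ i, α i ∈ eigs F)
      (_ : ∀ i k, i ≠ k → ∀ τ : ℂ ≃+* ℂ, τ (α i) ≠ α k) (δ : Fin r → ℂ) (d : Fin r → ℚ)
      (_ : ∀ i, Small Y F (α i) (δ i) (d i))
      (_ : (eigs F).ncard / 2 + (d '' {i | (conjOver (α i) (δ i) ∩ tanEigs Y F).encard ≠
        (conjOver (α i) (δ i) \ tanEigs Y F).encard}).ncard ≤ angleRank F (p ^ n) + r),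
      ∀ 𝒜 : Sys, AllTate 𝒜.A Y F (p ^ n)) ∧
    -- the exact reach
    (Neat F → (AllTate Alg Y F (p ^ n) ↔
      ∀ m, IsMultRel F (p ^ n) m → m ∈ MultGen Y F (p ^ n))) ∧
    -- simple abelian varieties
    (IsSimple Y → (AllTate Alg Y F (p ^ n) ↔ 2 * angleRank F (p ^ n) = finrank ℚ Y.H ∨
      (2 * (angleRank F (p ^ n) + 1) = finrank ℚ Y.H ∧ finrank ℚ Y.H ≤ 12))) := by
  have hX : ∀ Z, IsFactor Z Y → HasCMult Z ∨ Nice Y Z := fun Z hZ => Or.inl (h.cm Z hZ)
  have h4 : AllTate Alg Y F (p ^ n) ↔ ∀ m, IsRelation Y m → m ∈ Gen Y 3 :=
    (sys_iff_tate h algSys).symm.trans ⟨fun hh =>
      neg_dir Y 3 algSys (fun {ι} _ _ P hpol hprim hne t hT cf hcf Y {κ} _ _ f hf =>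
        fix_alg hpol hprim hne t cf hcf hT hf) hh,
      fun hh k => pos_dir Y hX algSys (Or.inr rfl) hh k⟩
  refine ⟨fun k c κ _ R _ _ t hc => tate_iff h k hc t,
    fun hneat r α hα hne δ d hs hr 𝒜 => ?_, fun hneat => ?_, fun hs => h4.trans ?_⟩
  · obtain ⟨M, hM⟩ := exists_matching h hneat
    obtain ⟨A, δ', hA, hne', hδ', hm, hiff⟩ := exists_types_num hM r α hα hne δ d hs
    refine (sys_iff_tate h 𝒜).1 fun k =>
      num_main Y hX A hA hne' d (fun i => (hs i).1) δ' hδ' hm ?_ 𝒜 k
    rw [Fintype.card_fin]
    have h5 : {i | ∃ w, {φ ∈ (A i).Φ | φ (δ' i) = w}.encard ≠
        {φ ∈ (A i).Φ | φ (δ' i) = -w}.encard} = {i | (conjOver (α i) (δ i) ∩ tanEigs Y F).encard ≠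
        (conjOver (α i) (δ i) \ tanEigs Y F).encard} := Set.ext fun i => hiff i
    rw [h5]
    have h6 := angleRank_eq h
    have h7 := card_eigs hM
    have h8 := two_span_le Y
    unfold defect
    omega
  · obtain ⟨M, hM⟩ := exists_matching h hneat
    exact h4.trans (crit_iff hM)
  · have hc : HasCMult Y := h.cm Y ⟨hs, LinearMap.id, ⟨LinearMap.id, fun v => rfl⟩, fun _ _ h => h⟩
    rw [simple_iff Y hs hc]
    have h6 := angleRank_eq h
    have h7 := simple_card Y hs hc
    have h8 := two_span_le Y
    have h9 := Y.rank
    unfold defect
    omega

end Pool.Agent.Results.MP_021685_ag.OrdinaryLattice
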